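import Mathlib
import Pool.Agent.X45.HY.Game
import Pool.Agent.X45.HY.Join20

/-! MP_689627_co, Q1 (disproved): the hyperopic cop number of a join can exceed `m(G) + m(J)`. -/

namespace Pool.Agent.Results.MP_689627_co.JoinCounterexample

open Pool.Agent.X45.HY

/-- There are connected graphs `G` and `J` with `c_H(G ∨ J) > m(G) + m(J)`, where
`m(X) = min {c_H(X), Υ(X)}`. -/
theorem result : ∃ G J : SimpleGraph (Fin 20), G.Connected ∧ J.Connected ∧
    mH G + mH J < cH (join G J) :=
  ⟨G20, G20, G20_conn, G20_conn, main20⟩

end Pool.Agent.Results.MP_689627_co.JoinCounterexample
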